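import Mathlib

/-!
# The cubic residues modulo 127: the finite computation
-/

set_option autoImplicit false

namespace Pool.Agent.H820.SecDom

/-- the set of the cubic residues modulo 127 as a bit mask -/
def M : ℕ := 144390480366845522447407333004847678774

/-- the neighbours of `x` -/
def A (x : ℕ) : ℕ := ((M <<< x) ||| (M >>> (127 - x))) % 2 ^ 127

def cond (v a m : ℕ) : Bool := (A v).testBit a || (m &&& A v) != 0

def tryv (i j k v : ℕ) : Bool :=
  v != i && (v != j && (v != k && (cond v 0 (A i &&& A j &&& A k) && (cond v i (A 0 &&& A j &&& A k) &&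
    (cond v j (A 0 &&& A i &&& A k) && cond v k (A 0 &&& A i &&& A j))))))

def search (i j k : ℕ) : ℕ → Bool
  | 0 => false
  | n + 1 => tryv i j k (126 - n) || search i j k n

def good (i j k : ℕ) : Bool := (A 0 &&& A i &&& A j &&& A k) != 0 || search i j k 126

def loopk (i j : ℕ) : ℕ → Bool
  | 0 => true
  | n + 1 => (n + 1 == i || (n + 1 == j || good i j (n + 1))) && loopk i j n

def loopj (i : ℕ) : ℕ → Bool
  | 0 => true
  | n + 1 => (n + 1 == i || loopk i (n + 1) n) && loopj i n

theorem c1 : loopj 1 126 = true := by decide +kernel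
theorem c3 : loopj 3 126 = true := by decide +kernel
theorem c9 : loopj 9 126 = true := by decide +kernel

def adjLoop (x : ℕ) : ℕ → Bool
  | 0 => true
  | n + 1 => ((A x).testBit n == ((x + 127 - n) ^ 42 % 127 == 1)) && adjLoop x n

def adjLoop2 : ℕ → Bool
  | 0 => true
  | n + 1 => adjLoop n 127 && adjLoop2 n

theorem cadj : adjLoop2 127 = true := by decide +kernel

def scLoop (x : ℕ) : ℕ → Bool
  | 0 => false
  | n + 1 => (n ^ 42 % 127 == 1 && (n * x % 127 == 1 || (n * x % 127 == 3 || n * x % 127 == 9))) || scLoop x n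

def scLoop2 : ℕ → Bool
  | 0 => true
  | n + 1 => scLoop (n + 1) 127 && scLoop2 n

theorem csc : scLoop2 126 = true := by decide +kernel

def trLoop : ℕ → Bool
  | 0 => true
  | n + 1 => (!(A 0 &&& A 1).testBit n || (A 0 &&& A 1 &&& A n) == 0) && trLoop n

theorem ctr : trLoop 127 = true := by decide +kernel

def sw (v u m : ℕ) : Bool := !(A v).testBit u && (m &&& A v) == 0

def upLoop : ℕ → Bool
  | 0 => true
  | n + 1 => (n < 5 || (sw n 0 (A 1 &&& A 2 &&& A 3 &&& A 4) || (sw n 1 (A 0 &&& A 2 &&& A 3 &&& A 4) ||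
      (sw n 2 (A 0 &&& A 1 &&& A 3 &&& A 4) || (sw n 3 (A 0 &&& A 1 &&& A 2 &&& A 4) ||
      sw n 4 (A 0 &&& A 1 &&& A 2 &&& A 3)))))) && upLoop n

theorem cup : upLoop 127 = true := by decide +kernel

end Pool.Agent.H820.SecDom
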