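import Mathlib
import Pool.Agent.H820.SecDom.Comp

/-!
# The graph of the cubic residues modulo 127
-/

set_option autoImplicit false

namespace Pool.Agent.H820.SecDom

/-- `x - y` is a non-zero cube -/
def h (x y : ZMod 127) : Prop := (x - y) ^ 42 = 1

theorem loopk_spec (i j : ℕ) : ∀ n, loopk i j n = true → ∀ k, 1 ≤ k → k ≤ n → k ≠ i → k ≠ j → good i j k = true := by
  intro n
  induction n with
  | zero => intro _ k h1 h2; omega
  | succ n ih =>
    intro hl k h1 h2 h3 h4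
    simp only [loopk, Bool.and_eq_true, Bool.or_eq_true, beq_iff_eq] at hl
    rcases Nat.lt_or_ge n k with h5 | h5
    · have h6 : k = n + 1 := by omega
      subst h6
      rcases hl.1 with h7 | h7 | h7
      · exact absurd h7 h3
      · exact absurd h7 h4
      · exact h7
    · exact ih hl.2 k h1 h5 h3 h4

theorem loopj_spec (i : ℕ) : ∀ n, loopj i n = true → ∀ j, 1 ≤ j → j ≤ n → j ≠ i → loopk i j (j - 1) = true := by
  intro n
  induction n with
  | zero => intro _ k h1 h2; omega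
  | succ n ih =>
    intro hl k h1 h2 h3
    simp only [loopj, Bool.and_eq_true, Bool.or_eq_true, beq_iff_eq] at hl
    rcases Nat.lt_or_ge n k with h5 | h5
    · have h6 : k = n + 1 := by omega
      subst h6
      rcases hl.1 with h7 | h7
      · exact absurd h7 h3
      · exact h7
    · exact ih hl.2 k h1 h5 h3

theorem good_of {i j k : ℕ} (hi : loopj i 126 = true) (hk : 1 ≤ k) (hkj : k < j) (hj : j ≤ 126) (h1 : k ≠ i)
    (h2 : j ≠ i) : good i j k = true :=
  loopk_spec i j _ (loopj_spec i 126 hi j (by omega) hj h2) k hk (by omega) h1 (by omega)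

theorem adj_spec (x : ℕ) : ∀ n, adjLoop x n = true → ∀ y < n, (A x).testBit y = ((x + 127 - y) ^ 42 % 127 == 1) := by
  intro n
  induction n with
  | zero => intro _ y hy; omega
  | succ n ih =>
    intro hl y hy
    simp only [adjLoop, Bool.and_eq_true, beq_iff_eq] at hl
    rcases Nat.lt_or_ge y n with h5 | h5
    · exact ih hl.2 y h5
    · have h6 : y = n := by omega
      subst h6
      exact hl.1

theorem adj2_spec : ∀ n, adjLoop2 n = true → ∀ x < n, adjLoop x 127 = true := by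
  intro n
  induction n with
  | zero => intro _ y hy; omega
  | succ n ih =>
    intro hl y hy
    simp only [adjLoop2, Bool.and_eq_true] at hl
    rcases Nat.lt_or_ge y n with h5 | h5
    · exact ih hl.2 y h5
    · have h6 : y = n := by omega
      subst h6
      exact hl.1

theorem A_lt (x : ℕ) : A x < 2 ^ 127 := Nat.mod_lt _ (by positivity)

theorem bit_iff {x y : ℕ} (hx : x < 127) (hy : y < 127) : (A x).testBit y = true ↔ h x y := by
  rw [adj_spec x 127 (adj2_spec 127 cadj x hx) y hy, beq_iff_eq]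
  unfold h
  have h1 : ((x : ZMod 127) - y) = ((x + 127 - y : ℕ) : ZMod 127) := by
    rw [Nat.cast_sub (by omega), Nat.cast_add, show ((127 : ℕ) : ZMod 127) = 0 from rfl, add_zero]
  rw [h1, ← Nat.cast_pow, show (1 : ZMod 127) = ((1 : ℕ) : ZMod 127) by norm_num, ZMod.natCast_eq_natCast_iff']

theorem bit_lt {x y : ℕ} (hb : (A x).testBit y = true) : y < 127 := by
  by_contra hc
  have := Nat.testBit_lt_two_pow (lt_of_lt_of_le (A_lt x) (Nat.pow_le_pow_right (by norm_num) (not_lt.1 hc)))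
  rw [this] at hb
  exact absurd hb (by decide)

/-- a common neighbour of four vertices -/
theorem common {a b c d : ℕ} (ha : a < 127) (hb : b < 127) (hc : c < 127) (hd : d < 127)
    (hne : (A a &&& A b &&& A c &&& A d) ≠ 0) : ∃ y : ZMod 127, h a y ∧ h b y ∧ h c y ∧ h d y := by
  obtain ⟨y, hy⟩ := Nat.exists_testBit_of_ne_zero hne
  simp only [Nat.testBit_and, Bool.and_eq_true] at hy
  obtain ⟨⟨⟨h1, h2⟩, h3⟩, h4⟩ := hy
  have hy := bit_lt h1
  exact ⟨(y : ZMod 127), (bit_iff ha hy).1 h1, (bit_iff hb hy).1 h2, (bit_iff hc hy).1 h3, (bit_iff hd hy).1 h4⟩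

theorem common_none {a b c d : ℕ} (ha : a < 127) (hb : b < 127) (hc : c < 127) (hd : d < 127)
    (hne : (A a &&& A b &&& A c &&& A d) = 0) (y : ZMod 127) : ¬ (h a y ∧ h b y ∧ h c y ∧ h d y) := by
  rintro ⟨h1, h2, h3, h4⟩
  have hy : y.val < 127 := y.val_lt
  have e : y = ((y.val : ℕ) : ZMod 127) := (ZMod.natCast_zmod_val y).symm
  rw [e] at h1 h2 h3 h4
  have h5 : (A a &&& A b &&& A c &&& A d).testBit y.val = true := by
    simp only [Nat.testBit_and, Bool.and_eq_true]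
    exact ⟨⟨⟨(bit_iff ha hy).2 h1, (bit_iff hb hy).2 h2⟩, (bit_iff hc hy).2 h3⟩, (bit_iff hd hy).2 h4⟩
  rw [hne] at h5
  simp at h5

/-- the obstruction for four vertices -/
def Bad (a b c d : ZMod 127) : Prop :=
  (∃ y, h a y ∧ h b y ∧ h c y ∧ h d y) ∨
    ∃ v, v ≠ a ∧ v ≠ b ∧ v ≠ c ∧ v ≠ d ∧ (h a v ∨ ∃ y, h b y ∧ h c y ∧ h d y ∧ h v y) ∧
      (h b v ∨ ∃ y, h a y ∧ h c y ∧ h d y ∧ h v y) ∧ (h c v ∨ ∃ y, h a y ∧ h b y ∧ h d y ∧ h v y) ∧
      (h d v ∨ ∃ y, h a y ∧ h b y ∧ h c y ∧ h v y)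

theorem Bad.swap {a b c d : ZMod 127} (H : Bad a b c d) : Bad a b d c := by
  rcases H with ⟨y, h1, h2, h3, h4⟩ | ⟨v, n1, n2, n3, n4, h1, h2, h3, h4⟩
  · exact Or.inl ⟨y, h1, h2, h4, h3⟩
  · refine Or.inr ⟨v, n1, n2, n4, n3, ?_, ?_, ?_, ?_⟩
    · exact h1.imp id (fun ⟨y, a1, a2, a3, a4⟩ => ⟨y, a1, a3, a2, a4⟩)
    · exact h2.imp id (fun ⟨y, a1, a2, a3, a4⟩ => ⟨y, a1, a3, a2, a4⟩)
    · exact h4.imp id (fun ⟨y, a1, a2, a3, a4⟩ => ⟨y, a1, a2, a3, a4⟩)
    · exact h3.imp id (fun ⟨y, a1, a2, a3, a4⟩ => ⟨y, a1, a2, a3, a4⟩)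

theorem h_comm {x y : ZMod 127} : h x y ↔ h y x := by
  unfold h
  rw [← neg_sub y x, Even.neg_pow (by decide)]

theorem h_ne {x y : ZMod 127} (hh : h x y) : x ≠ y := by
  rintro rfl
  unfold h at hh
  rw [sub_self] at hh
  exact absurd hh (by decide)

theorem h_affine {l m x y : ZMod 127} (hl : l ^ 42 = 1) : h (l * x + m) (l * y + m) ↔ h x y := by
  unfold h
  rw [show l * x + m - (l * y + m) = l * (x - y) by ring, mul_pow, hl, one_mul]

theorem Bad.of_affine {l m a b c d : ZMod 127} (hl : l ^ 42 = 1)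
    (H : Bad (l * a + m) (l * b + m) (l * c + m) (l * d + m)) : Bad a b c d := by
  have hl0 : l ≠ 0 := by
    rintro rfl
    exact absurd hl (by decide)
  have : Fact (Nat.Prime 127) := ⟨by norm_num⟩
  have surj : ∀ y : ZMod 127, ∃ y', l * y' + m = y := fun y => ⟨l⁻¹ * (y - m), by
    rw [← mul_assoc, mul_inv_cancel₀ hl0, one_mul, sub_add_cancel]⟩
  have key : ∀ {p q r s : ZMod 127}, (∃ y, h (l * p + m) y ∧ h (l * q + m) y ∧ h (l * r + m) y ∧ h (l * s + m) y) →
      ∃ y, h p y ∧ h q y ∧ h r y ∧ h s y := by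
    rintro p q r s ⟨y, h1, h2, h3, h4⟩
    obtain ⟨y', rfl⟩ := surj y
    exact ⟨y', (h_affine hl).1 h1, (h_affine hl).1 h2, (h_affine hl).1 h3, (h_affine hl).1 h4⟩
  rcases H with H | ⟨v, n1, n2, n3, n4, h1, h2, h3, h4⟩
  · exact Or.inl (key H)
  · obtain ⟨v', rfl⟩ := surj v
    refine Or.inr ⟨v', fun e => n1 (by rw [e]), fun e => n2 (by rw [e]), fun e => n3 (by rw [e]),
      fun e => n4 (by rw [e]), ?_, ?_, ?_, ?_⟩
    · exact h1.imp (h_affine hl).1 key
    · exact h2.imp (h_affine hl).1 key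
    · exact h3.imp (h_affine hl).1 key
    · exact h4.imp (h_affine hl).1 key

theorem search_spec (i j k : ℕ) : ∀ n ≤ 126, search i j k n = true → ∃ v, 1 ≤ v ∧ v < 127 ∧ tryv i j k v = true := by
  intro n
  induction n with
  | zero => intro _ hh; simp [search] at hh
  | succ n ih =>
    intro hn hh
    simp only [search, Bool.or_eq_true] at hh
    rcases hh with hh | hh
    · exact ⟨126 - n, by omega, by omega, hh⟩
    · exact ih (by omega) hh

theorem cast_ne {a b : ℕ} (ha : a < 127) (hb : b < 127) (hab : a ≠ b) : (a : ZMod 127) ≠ b := by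
  intro e
  rw [ZMod.natCast_eq_natCast_iff'] at e
  rw [Nat.mod_eq_of_lt ha, Nat.mod_eq_of_lt hb] at e
  exact hab e

theorem good_bad {i j k : ℕ} (hi : i < 127) (hj : j < 127) (hk : k < 127) (hg : good i j k = true) :
    Bad 0 i j k := by
  have h0 : (0 : ℕ) < 127 := by norm_num
  have e0 : (0 : ZMod 127) = ((0 : ℕ) : ZMod 127) := by norm_num
  rw [e0]
  unfold good at hg
  rw [Bool.or_eq_true] at hg
  rcases hg with hg | hg
  · rw [bne_iff_ne] at hg
    exact Or.inl (common h0 hi hj hk hg)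
  · obtain ⟨v, hv1, hv, ht⟩ := search_spec i j k 126 le_rfl hg
    simp only [tryv, cond, Bool.and_eq_true, Bool.or_eq_true, bne_iff_ne] at ht
    obtain ⟨n1, n2, n3, t1, t2, t3, t4⟩ := ht
    refine Or.inr ⟨(v : ZMod 127), cast_ne hv h0 (by omega), cast_ne hv hi n1, cast_ne hv hj n2, cast_ne hv hk n3,
      ?_, ?_, ?_, ?_⟩
    · exact t1.imp (fun t => h_comm.1 ((bit_iff hv h0).1 t)) (fun t => common hi hj hk hv t)
    · exact t2.imp (fun t => h_comm.1 ((bit_iff hv hi).1 t)) (fun t => common h0 hj hk hv t)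
    · exact t3.imp (fun t => h_comm.1 ((bit_iff hv hj).1 t)) (fun t => common h0 hi hk hv t)
    · exact t4.imp (fun t => h_comm.1 ((bit_iff hv hk).1 t)) (fun t => common h0 hi hj hv t)

theorem sc_spec (x : ℕ) : ∀ n, scLoop x n = true → ∃ l, l ^ 42 % 127 = 1 ∧
    (l * x % 127 = 1 ∨ l * x % 127 = 3 ∨ l * x % 127 = 9) := by
  intro n
  induction n with
  | zero => intro hh; simp [scLoop] at hh
  | succ n ih =>
    intro hh
    simp only [scLoop, Bool.and_eq_true, Bool.or_eq_true, beq_iff_eq] at hh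
    rcases hh with hh | hh
    · exact ⟨n, hh.1, hh.2⟩
    · exact ih hh

theorem sc2_spec : ∀ n, scLoop2 n = true → ∀ x, 1 ≤ x → x ≤ n → scLoop x 127 = true := by
  intro n
  induction n with
  | zero => intro _ y h1 hy; omega
  | succ n ih =>
    intro hl y h1 hy
    simp only [scLoop2, Bool.and_eq_true] at hl
    rcases Nat.lt_or_ge n y with h5 | h5
    · have h6 : y = n + 1 := by omega
      subst h6
      exact hl.1
    · exact ih hl.2 y h1 h5

theorem scale (x : ZMod 127) (hx : x ≠ 0) : ∃ l : ZMod 127, l ^ 42 = 1 ∧ ∃ i : ℕ, (i = 1 ∨ i = 3 ∨ i = 9) ∧ l * x = i := by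
  have hx1 : 1 ≤ x.val := by
    rcases Nat.eq_zero_or_pos x.val with h0 | h0
    · exact absurd ((ZMod.val_eq_zero x).1 h0) hx
    · exact h0
  obtain ⟨l, h1, h2⟩ := sc_spec x.val 127 (sc2_spec 126 csc x.val hx1 (by have := x.val_lt; omega))
  refine ⟨(l : ZMod 127), ?_, ?_⟩
  · rw [← Nat.cast_pow, show (1 : ZMod 127) = ((1 : ℕ) : ZMod 127) by norm_num, ZMod.natCast_eq_natCast_iff']
    exact h1
  · have h3 : ∀ i : ℕ, i < 127 → l * x.val % 127 = i → (l : ZMod 127) * x = i := by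
      intro i hi e
      have e2 : ((l * x.val : ℕ) : ZMod 127) = (i : ℕ) := by
        rw [ZMod.natCast_eq_natCast_iff', Nat.mod_eq_of_lt hi]
        exact e
      rw [Nat.cast_mul, ZMod.natCast_zmod_val] at e2
      exact e2
    rcases h2 with h2 | h2 | h2
    · exact ⟨1, Or.inl rfl, h3 1 (by norm_num) h2⟩
    · exact ⟨3, Or.inr (Or.inl rfl), h3 3 (by norm_num) h2⟩
    · exact ⟨9, Or.inr (Or.inr rfl), h3 9 (by norm_num) h2⟩

theorem all_bad {a b c d : ZMod 127} (hab : a ≠ b) (hac : a ≠ c) (had : a ≠ d) (hbc : b ≠ c) (hbd : b ≠ d)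
    (hcd : c ≠ d) : Bad a b c d := by
  obtain ⟨l, hl, i, hi, hli⟩ := scale (b - a) (sub_ne_zero.2 hab.symm)
  have hl0 : l ≠ 0 := by
    rintro rfl
    exact absurd hl (by decide)
  have : Fact (Nat.Prime 127) := ⟨by norm_num⟩
  apply Bad.of_affine (l := l) (m := - (l * a)) hl
  have e1 : l * a + -(l * a) = 0 := by ring
  have e2 : l * b + -(l * a) = i := by rw [← hli]; ring
  obtain ⟨y, hy⟩ : ∃ y, y = l * c + -(l * a) := ⟨_, rfl⟩
  obtain ⟨z, hz⟩ : ∃ z, z = l * d + -(l * a) := ⟨_, rfl⟩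
  rw [e1, e2, ← hy, ← hz]
  have inj : ∀ p q : ZMod 127, p ≠ q → l * p + -(l * a) ≠ l * q + -(l * a) := fun p q hpq e =>
    hpq (mul_left_cancel₀ hl0 (add_right_cancel e))
  have y0 : y ≠ 0 := by rw [hy, ← e1]; exact inj _ _ hac.symm
  have z0 : z ≠ 0 := by rw [hz, ← e1]; exact inj _ _ had.symm
  have yi : y ≠ i := by rw [hy, ← e2]; exact inj _ _ hbc.symm
  have zi : z ≠ i := by rw [hz, ← e2]; exact inj _ _ hbd.symm
  have yz : y ≠ z := by rw [hy, hz]; exact inj _ _ hcd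
  have vy : y = (y.val : ZMod 127) := (ZMod.natCast_zmod_val y).symm
  have vz : z = (z.val : ZMod 127) := (ZMod.natCast_zmod_val z).symm
  have hy1 : 1 ≤ y.val := Nat.one_le_iff_ne_zero.2 (fun e => y0 ((ZMod.val_eq_zero y).1 e))
  have hz1 : 1 ≤ z.val := Nat.one_le_iff_ne_zero.2 (fun e => z0 ((ZMod.val_eq_zero z).1 e))
  have hy2 : y.val < 127 := y.val_lt
  have hz2 : z.val < 127 := z.val_lt
  have hyi : y.val ≠ i := fun e => yi (by rw [← e]; exact vy)
  have hzi : z.val ≠ i := fun e => zi (by rw [← e]; exact vz)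
  have hyz : y.val ≠ z.val := fun e => yz (by rw [vy, vz, e])
  have hi126 : i < 127 := by omega
  have hli : loopj i 126 = true := by
    rcases hi with rfl | rfl | rfl
    · exact c1
    · exact c3
    · exact c9
  rcases Nat.lt_or_gt_of_ne hyz with hlt | hlt
  · apply Bad.swap
    rw [vy, vz]
    exact good_bad hi126 hz2 hy2 (good_of hli hy1 hlt (by omega) hyi hzi)
  · rw [vy, vz]
    exact good_bad hi126 hy2 hz2 (good_of hli hz1 hlt (by omega) hzi hyi)

end Pool.Agent.H820.SecDom
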